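import Pool.Agent.H242Z.AEEnf

set_option autoImplicit false

namespace Pool.Agent.Results.MP_fe1fea_co.ATriangle

open Pool.Agent.H242Z.AE

/-- Negative answer to Q1: there is a graph `H` with at least three edges (the triangle) for which
the upper threshold is not of the order of the maximum of the lower thresholds of the graphs
`H - e`. -/
theorem result : ∃ (V : Type) (_ : Fintype V) (_ : DecidableEq V) (H : SimpleGraph V)
    (_ : DecidableRel H.Adj), 3 ≤ H.edgeFinset.card ∧
      ¬ ∃ c C : ℝ, 0 < c ∧ c < C ∧ ∀ᶠ n : ℕ in Filter.atTop,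
        c * (maxLower H n : ℝ) ≤ fUpper H n ∧ (fUpper H n : ℝ) ≤ C * (maxLower H n : ℝ) :=
  ⟨Fin 3, inferInstance, inferInstance, ⊤, inferInstance, by decide,
    fun ⟨c, _, hc, _, h⟩ => not_theta ⟨c, hc, h.mono (fun _ hn => hn.1)⟩⟩

end Pool.Agent.Results.MP_fe1fea_co.ATriangle
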